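import Mathlib

namespace Pool.Agent.H313DD

open Finset

/-- The number of distinct distances determined by a finite set of points of `ℝ^k`. -/
noncomputable def numDist {k : ℕ} (X : Finset (EuclideanSpace ℝ (Fin k))) : ℕ :=
  {d : ℝ | ∃ x ∈ X, ∃ y ∈ X, x ≠ y ∧ dist x y = d}.ncard

lemma numDist_def {k : ℕ} [DecidableEq (EuclideanSpace ℝ (Fin k))] [DecidableEq ℝ]
    (X : Finset (EuclideanSpace ℝ (Fin k))) :
    numDist X = (X.offDiag.image (fun p => dist p.1 p.2)).card := by
  rw [numDist, ← Set.ncard_coe_finset]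
  refine congrArg Set.ncard (Set.ext fun d => ?_)
  simp only [Set.mem_setOf_eq, Finset.coe_image, Set.mem_image, Finset.mem_coe,
    Finset.mem_offDiag, Prod.exists]
  constructor
  · rintro ⟨x, hx, y, hy, hne, rfl⟩
    exact ⟨x, y, ⟨hx, hy, hne⟩, rfl⟩
  · rintro ⟨x, y, ⟨hx, hy, hne⟩, rfl⟩
    exact ⟨x, hx, y, hy, hne, rfl⟩

lemma card_image_le_of {α β γ : Type*} [DecidableEq β] [DecidableEq γ] (T : Finset α)
    (u : α → β) (v : α → γ) (h : ∀ a ∈ T, ∀ b ∈ T, u a = u b → v a = v b) :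
    (T.image v).card ≤ (T.image u).card := by
  classical
  rcases T.eq_empty_or_nonempty with rfl | ⟨a0, _⟩
  · simp
  have : Nonempty α := ⟨a0⟩
  have hex : ∀ c ∈ T.image v, ∃ a ∈ T, v a = c := fun c hc => by
    simpa using hc
  choose! g hg1 hg2 using hex
  refine Finset.card_le_card_of_injOn (fun c => u (g c)) ?_ ?_
  · intro c hc
    exact Finset.mem_coe.mpr (Finset.mem_image_of_mem _ (hg1 c hc))
  · intro c hc c' hc' hcc
    have := h _ (hg1 c hc) _ (hg1 c' hc') hcc
    rwa [hg2 c hc, hg2 c' hc'] at this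

lemma card_image_eq_of {α β γ : Type*} [DecidableEq β] [DecidableEq γ] (T : Finset α)
    (u : α → β) (v : α → γ) (h : ∀ a ∈ T, ∀ b ∈ T, (u a = u b ↔ v a = v b)) :
    (T.image u).card = (T.image v).card :=
  le_antisymm (card_image_le_of T v u fun a ha b hb hab => (h a ha b hb).mpr hab)
    (card_image_le_of T u v fun a ha b hb hab => (h a ha b hb).mp hab)

/-- Transfer of the number of distances. -/
lemma numDist_image {k : ℕ} [DecidableEq (EuclideanSpace ℝ (Fin k))] {α β : Type*} [DecidableEq α]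
    [DecidableEq β] (g : α → EuclideanSpace ℝ (Fin k))
    (S : Finset α) (hg : Set.InjOn g S) (δ : α → α → β)
    (h : ∀ x ∈ S, ∀ y ∈ S, ∀ x' ∈ S, ∀ y' ∈ S, x ≠ y → x' ≠ y' →
      (dist (g x) (g y) = dist (g x') (g y') ↔ δ x y = δ x' y')) :
    numDist (S.image g) = (S.offDiag.image (fun p => δ p.1 p.2)).card := by
  classical
  rw [numDist_def]
  have h1 : (S.image g).offDiag.image (fun p => dist p.1 p.2)
      = S.offDiag.image (fun p => dist (g p.1) (g p.2)) := by
    ext d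
    simp only [mem_image, mem_offDiag, Prod.exists]
    constructor
    · rintro ⟨a, b, ⟨⟨x, hx, rfl⟩, ⟨y, hy, rfl⟩, hne⟩, rfl⟩
      exact ⟨x, y, ⟨hx, hy, fun e => hne (by rw [e])⟩, rfl⟩
    · rintro ⟨x, y, ⟨hx, hy, hne⟩, rfl⟩
      exact ⟨g x, g y, ⟨⟨x, hx, rfl⟩, ⟨y, hy, rfl⟩, fun e => hne (hg hx hy e)⟩, rfl⟩
  rw [h1]
  refine card_image_eq_of _ _ _ fun a ha b hb => ?_
  rw [mem_offDiag] at ha hb
  exact h _ ha.1 _ ha.2.1 _ hb.1 _ hb.2.1 ha.2.2 hb.2.2

/-- The set of values of the number of distinct distances of `n` points of `ℝ^k`. -/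
def D (k n : ℕ) : Set ℕ :=
  {h | ∃ X : Finset (EuclideanSpace ℝ (Fin k)), X.card = n ∧ numDist X = h}

lemma numDist_le {k : ℕ} (X : Finset (EuclideanSpace ℝ (Fin k))) :
    numDist X ≤ X.card.choose 2 := by
  classical
  rw [numDist_def]
  -- each distance is attained at least twice in `offDiag`
  have h2 : 2 * (X.offDiag.image (fun p => dist p.1 p.2)).card ≤ X.offDiag.card := by
    refine Finset.mul_card_image_le_card (f := fun p : EuclideanSpace ℝ (Fin k) ×
      EuclideanSpace ℝ (Fin k) => dist p.1 p.2) X.offDiag 2 ?_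
    intro d hd
    rw [mem_image] at hd
    obtain ⟨⟨a, b⟩, hab, rfl⟩ := hd
    rw [mem_offDiag] at hab
    have hsub : ({(a, b), (b, a)} : Finset (EuclideanSpace ℝ (Fin k) × EuclideanSpace ℝ (Fin k)))
        ⊆ X.offDiag.filter (fun x => dist x.1 x.2 = dist a b) := by
      intro x hx
      rw [mem_insert, mem_singleton] at hx
      rw [mem_filter, mem_offDiag]
      rcases hx with rfl | rfl
      · exact ⟨hab, rfl⟩
      · exact ⟨⟨hab.2.1, hab.1, hab.2.2.symm⟩, dist_comm _ _⟩
    refine le_trans ?_ (card_le_card hsub)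
    rw [card_pair]
    intro e
    exact hab.2.2 (congrArg Prod.fst e)
  rw [offDiag_card] at h2
  rw [Nat.choose_two_right]
  rw [Nat.le_div_iff_mul_le (by norm_num)]
  rw [Nat.mul_sub, mul_one]
  linarith

end Pool.Agent.H313DD
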