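import Mathlib
import Pool.Agent.H313DD.Basic

namespace Pool.Agent.H313DD

open Finset

/-- number of differences of a finite set of naturals. -/
def nd (S : Finset ℕ) : ℕ := (S.offDiag.image (fun p => ((p.1 : ℤ) - p.2).natAbs)).card

lemma mem_diffs {S : Finset ℕ} {d : ℕ} :
    d ∈ S.offDiag.image (fun p => ((p.1 : ℤ) - p.2).natAbs) ↔
      0 < d ∧ ∃ x ∈ S, x + d ∈ S := by
  rw [mem_image]
  constructor
  · rintro ⟨⟨a, b⟩, hab, rfl⟩
    rw [mem_offDiag] at hab
    obtain ⟨ha, hb, hne⟩ := hab
    simp only at ha hb hne ⊢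
    refine ⟨by omega, ?_⟩
    rcases Nat.lt_or_gt_of_ne hne with h | h
    · exact ⟨a, ha, by rwa [show a + ((a : ℤ) - b).natAbs = b by omega]⟩
    · exact ⟨b, hb, by rwa [show b + ((a : ℤ) - b).natAbs = a by omega]⟩
  · rintro ⟨hd, x, hx, hxd⟩
    refine ⟨(x, x + d), ?_, ?_⟩
    · rw [mem_offDiag]
      exact ⟨hx, hxd, by simp only; omega⟩
    · simp only
      push_cast
      omega

/-- Every number between `n - 1` and `n choose 2` is a number of differences. -/
theorem exists_nat_set (n : ℕ) : ∀ h : ℕ, n ≤ h → h ≤ (n + 1).choose 2 →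
    ∃ S : Finset ℕ, S.card = n + 1 ∧ nd S = h := by
  induction n with
  | zero =>
    intro h h1 h2
    have : h = 0 := by simpa using h2
    subst this
    exact ⟨{0}, by simp, by simp [nd]⟩
  | succ n ih =>
    intro h h1 h2
    have hch : (n + 1 + 1).choose 2 = (n + 1) + (n + 1).choose 2 := by
      rw [Nat.choose_succ_succ' (n + 1) 1, Nat.choose_one_right]
    by_cases hbig : 2 * n + 1 ≤ h
    · obtain ⟨S, hS, hSd⟩ := ih (h - (n + 1)) (by omega) (by omega)
      -- add a far point
      set M := S.sup id with hM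
      have hle : ∀ x ∈ S, x ≤ M := fun x hx => Finset.le_sup (f := id) hx
      have hnot : 2 * M + 1 ∉ S := fun hx => by have := hle _ hx; omega
      refine ⟨insert (2 * M + 1) S, ?_, ?_⟩
      · rw [card_insert_of_notMem hnot, hS]
      · have himg : (insert (2 * M + 1) S).offDiag.image (fun p => ((p.1 : ℤ) - p.2).natAbs)
            = (S.offDiag.image (fun p => ((p.1 : ℤ) - p.2).natAbs)) ∪
              S.image (fun x => 2 * M + 1 - x) := by
          ext d
          rw [mem_union, mem_diffs, mem_diffs, mem_image]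
          constructor
          · rintro ⟨hd, x, hx, hxd⟩
            rw [mem_insert] at hx hxd
            rcases hx with hx | hx
            · rcases hxd with hxd | hxd
              · omega
              · have := hle _ hxd
                omega
            · rcases hxd with hxd | hxd
              · right
                exact ⟨x, hx, by omega⟩
              · left
                exact ⟨hd, x, hx, hxd⟩
          · rintro (⟨hd, x, hx, hxd⟩ | ⟨x, hx, rfl⟩)
            · exact ⟨hd, x, mem_insert_of_mem hx, mem_insert_of_mem hxd⟩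
            · have := hle _ hx
              refine ⟨by omega, x, mem_insert_of_mem hx, ?_⟩
              rw [show x + (2 * M + 1 - x) = 2 * M + 1 by omega]
              exact mem_insert_self _ _
        have hdisj : Disjoint (S.offDiag.image (fun p => ((p.1 : ℤ) - p.2).natAbs))
            (S.image (fun x => 2 * M + 1 - x)) := by
          rw [Finset.disjoint_left]
          intro d hd hd'
          rw [mem_diffs] at hd
          rw [mem_image] at hd'
          obtain ⟨_, x, hx, hxd⟩ := hd
          obtain ⟨y, hy, rfl⟩ := hd'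
          have h1 := hle _ hxd
          have h2 := hle _ hy
          omega
        have hcard2 : (S.image (fun x => 2 * M + 1 - x)).card = n + 1 := by
          rw [card_image_of_injOn, hS]
          intro x hx y hy hxy
          have h1 := hle _ hx
          have h2 := hle _ hy
          simp only at hxy
          omega
        unfold nd at hSd ⊢
        rw [himg, card_union_of_disjoint hdisj, hSd, hcard2]
        omega
    · -- arithmetic progression with one more point
      have hnot : h ∉ range (n + 1) := by rw [mem_range]; omega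
      refine ⟨insert h (range (n + 1)), ?_, ?_⟩
      · rw [card_insert_of_notMem hnot, card_range]
      · have himg : (insert h (range (n + 1))).offDiag.image (fun p => ((p.1 : ℤ) - p.2).natAbs)
            = Icc 1 h := by
          ext d
          rw [mem_diffs, mem_Icc]
          constructor
          · rintro ⟨hd, x, hx, hxd⟩
            rw [mem_insert, mem_range] at hx hxd
            omega
          · rintro ⟨hd1, hd2⟩
            refine ⟨by omega, ?_⟩
            by_cases hdn : d ≤ n
            · refine ⟨0, ?_, ?_⟩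
              · rw [mem_insert, mem_range]; omega
              · rw [mem_insert, mem_range]; omega
            · refine ⟨h - d, ?_, ?_⟩
              · rw [mem_insert, mem_range]; omega
              · rw [mem_insert, mem_range]; omega
        unfold nd
        rw [himg, Nat.card_Icc]
        omega

/-- Line constructions in every dimension. -/
theorem line_mem_D {k : ℕ} (hk : 1 ≤ k) {n h : ℕ} (hn : 1 ≤ n) (h1 : n - 1 ≤ h)
    (h2 : h ≤ n.choose 2) : h ∈ D k n := by
  classical
  obtain ⟨S, hS, hSd⟩ := exists_nat_set (n - 1) h h1 (by rwa [Nat.sub_add_cancel hn])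
  rw [Nat.sub_add_cancel hn] at hS
  let i0 : Fin k := ⟨0, hk⟩
  let g : ℕ → EuclideanSpace ℝ (Fin k) := fun j => EuclideanSpace.single i0 (j : ℝ)
  have hdist : ∀ x y : ℕ, dist (g x) (g y) = (((x : ℤ) - y).natAbs : ℝ) := by
    intro x y
    simp only [g]
    rw [EuclideanSpace.dist_single_same, Real.dist_eq]
    have : (((x : ℤ) - y).natAbs : ℝ) = |((x : ℤ) - y : ℤ)| := by
      rw [Nat.cast_natAbs]
    rw [this]
    push_cast
    rfl
  have hinj : Function.Injective g := by
    intro x y hxy
    have h3 := hdist x y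
    rw [hxy, dist_self] at h3
    have h4 : ((x : ℤ) - y).natAbs = 0 := by exact_mod_cast h3.symm
    omega
  refine ⟨S.image g, ?_, ?_⟩
  · rw [card_image_of_injective _ hinj, hS]
  · rw [numDist_image g S hinj.injOn (fun x y => ((x : ℤ) - y).natAbs)]
    · exact hSd
    · intro x _ y _ x' _ y' _ _ _
      rw [hdist, hdist]
      exact Nat.cast_inj

lemma D_one_ge {n h : ℕ} (hn : 1 ≤ n) (hh : h ∈ D 1 n) : n - 1 ≤ h := by
  classical
  obtain ⟨X, hX, rfl⟩ := hh
  have hne : X.Nonempty := card_pos.mp (by omega)
  -- the point with the smallest coordinate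
  obtain ⟨m, hm, hmin⟩ := X.exists_min_image (fun x => x 0) hne
  rw [numDist_def]
  have hsub : (X.erase m).image (fun x => dist x m) ⊆ X.offDiag.image (fun p => dist p.1 p.2) := by
    intro d hd
    rw [mem_image] at hd ⊢
    obtain ⟨x, hx, rfl⟩ := hd
    rw [mem_erase] at hx
    exact ⟨(x, m), mem_offDiag.mpr ⟨hx.2, hm, hx.1⟩, rfl⟩
  refine le_trans ?_ (card_le_card hsub)
  rw [card_image_of_injOn, card_erase_of_mem hm, hX]
  intro x hx y hy hxy
  rw [coe_erase] at hx hy
  have hx' := hmin x hx.1
  have hy' := hmin y hy.1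
  have hd : ∀ z : EuclideanSpace ℝ (Fin 1), dist z m = |z 0 - m 0| := by
    intro z
    rw [EuclideanSpace.dist_eq]
    simp [Real.dist_eq, Real.sqrt_sq_eq_abs]
  simp only at hxy
  rw [hd, hd, abs_of_nonneg (by linarith), abs_of_nonneg (by linarith)] at hxy
  ext i
  rw [Subsingleton.elim i 0]
  linarith

theorem D_one {n : ℕ} (hn : 1 ≤ n) : D 1 n = Set.Icc (n - 1) (n.choose 2) := by
  ext h
  rw [Set.mem_Icc]
  constructor
  · intro hh
    refine ⟨D_one_ge hn hh, ?_⟩
    obtain ⟨X, hX, rfl⟩ := hh
    exact hX ▸ numDist_le X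
  · rintro ⟨h1, h2⟩
    exact line_mem_D le_rfl hn h1 h2

/-- Removal of points. -/
theorem removal {k : ℕ} {N h n : ℕ} (hh : h ∈ D k N) (h1 : 2 * h ≤ n) (h2 : n ≤ N) : h ∈ D k n := by
  classical
  obtain ⟨X, hX, hXd⟩ := hh
  rw [numDist_def] at hXd
  have hex : ∀ d ∈ X.offDiag.image (fun p => dist p.1 p.2), ∃ a ∈ X, ∃ b ∈ X, a ≠ b ∧ dist a b = d := by
    intro d hd
    rw [mem_image] at hd
    obtain ⟨p, hp, rfl⟩ := hd
    rw [mem_offDiag] at hp
    exact ⟨p.1, hp.1, p.2, hp.2.1, hp.2.2, rfl⟩
  choose! a ha b hb hab hdist using hex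
  set Δ := X.offDiag.image (fun p => dist p.1 p.2) with hΔ
  set T := Δ.image a ∪ Δ.image b with hT
  have hTX : T ⊆ X := by
    intro x hx
    rw [hT, mem_union, mem_image, mem_image] at hx
    rcases hx with ⟨d, hd, rfl⟩ | ⟨d, hd, rfl⟩
    · exact ha d hd
    · exact hb d hd
  have hTc : T.card ≤ 2 * h := by
    refine (card_union_le _ _).trans ?_
    have h3 : (Δ.image a).card ≤ Δ.card := card_image_le
    have h4 : (Δ.image b).card ≤ Δ.card := card_image_le
    omega
  obtain ⟨Y, hTY, hYX, hY⟩ := exists_subsuperset_card_eq hTX (hTc.trans h1) (h2.trans_eq hX.symm)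
  refine ⟨Y, hY, ?_⟩
  rw [numDist_def, ← hXd]
  congr 1
  apply Finset.Subset.antisymm
  · exact image_subset_image (offDiag_mono hYX)
  · intro d hd
    rw [mem_image]
    refine ⟨(a d, b d), ?_, hdist d hd⟩
    rw [mem_offDiag]
    exact ⟨hTY (mem_union_left _ (mem_image_of_mem _ hd)),
      hTY (mem_union_right _ (mem_image_of_mem _ hd)), hab d hd⟩

end Pool.Agent.H313DD
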