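import Mathlib
import Pool.Agent.H313DD.Line

namespace Pool.Agent.H313DD

open Finset

/-- the plane inside `ℝ^k`. -/
noncomputable def plane {k : ℕ} (hk : 2 ≤ k) (x y : ℝ) : EuclideanSpace ℝ (Fin k) :=
  EuclideanSpace.single (⟨0, by omega⟩ : Fin k) x + EuclideanSpace.single (⟨1, by omega⟩ : Fin k) y

lemma norm_plane {k : ℕ} (hk : 2 ≤ k) (x y : ℝ) : ‖plane hk x y‖ ^ 2 = x ^ 2 + y ^ 2 := by
  unfold plane
  rw [EuclideanSpace.norm_sq_eq]
  have h01 : (⟨0, by omega⟩ : Fin k) ≠ ⟨1, by omega⟩ := by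
    intro e; simpa using congrArg Fin.val e
  have : ∀ i : Fin k, ‖(EuclideanSpace.single (⟨0, by omega⟩ : Fin k) x +
      EuclideanSpace.single (⟨1, by omega⟩ : Fin k) y : EuclideanSpace ℝ (Fin k)) i‖ ^ 2
      = (if i = ⟨0, by omega⟩ then x ^ 2 else 0) + (if i = ⟨1, by omega⟩ then y ^ 2 else 0) := by
    intro i
    rw [PiLp.add_apply, EuclideanSpace.single_apply, EuclideanSpace.single_apply, Real.norm_eq_abs,
      sq_abs]
    by_cases h0 : i = ⟨0, by omega⟩
    · rw [if_pos h0, if_neg (by rw [h0]; exact h01), if_pos h0, if_neg (by rw [h0]; exact h01)]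
      ring
    · by_cases h1 : i = ⟨1, by omega⟩
      · rw [if_neg h0, if_pos h1, if_neg h0, if_pos h1]; ring
      · rw [if_neg h0, if_neg h1, if_neg h0, if_neg h1]; ring
  simp only [this]
  rw [sum_add_distrib, sum_ite_eq' univ, sum_ite_eq' univ]
  simp

lemma plane_sub {k : ℕ} (hk : 2 ≤ k) (x y x' y' : ℝ) :
    plane hk x y - plane hk x' y' = plane hk (x - x') (y - y') := by
  unfold plane
  ext i
  simp only [PiLp.sub_apply, PiLp.add_apply, EuclideanSpace.single_apply]
  split_ifs <;> ring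

/-- vertices of a regular polygon. -/
noncomputable def vert {k : ℕ} (hk : 2 ≤ k) (m j : ℕ) : EuclideanSpace ℝ (Fin k) :=
  plane hk (Real.cos (2 * Real.pi * j / m)) (Real.sin (2 * Real.pi * j / m))

lemma dist_vert {k : ℕ} (hk : 2 ≤ k) (m i j : ℕ) :
    dist (vert hk m i) (vert hk m j) ^ 2
      = 2 - 2 * Real.cos (2 * Real.pi * (((i : ℤ) - j).natAbs : ℝ) / m) := by
  unfold vert
  rw [dist_eq_norm, plane_sub, norm_plane]
  have h1 : Real.cos (2 * Real.pi * (((i : ℤ) - j).natAbs : ℝ) / m)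
      = Real.cos (2 * Real.pi * i / m - 2 * Real.pi * j / m) := by
    rw [Nat.cast_natAbs]
    push_cast
    rcases abs_choice ((i : ℝ) - j) with h | h
    · rw [h]; congr 1; ring
    · rw [h, ← Real.cos_neg]; congr 1; ring
  rw [h1, Real.cos_sub]
  nlinarith [Real.sin_sq_add_cos_sq (2 * Real.pi * i / m), Real.sin_sq_add_cos_sq (2 * Real.pi * j / m)]

/-- the fold `d ↦ min d (m - d)`. -/
def fold (m d : ℕ) : ℕ := min d (m - d)

lemma cos_fold {m d : ℕ} (hd : d ≤ m) (hm : 0 < m) :
    Real.cos (2 * Real.pi * (d : ℝ) / m) = Real.cos (2 * Real.pi * (fold m d : ℝ) / m) := by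
  unfold fold
  rcases le_total d (m - d) with h | h
  · rw [min_eq_left h]
  · rw [min_eq_right h, Nat.cast_sub hd]
    have hm' : (m : ℝ) ≠ 0 := by exact_mod_cast hm.ne'
    have : 2 * Real.pi * ((m : ℝ) - d) / m = 2 * Real.pi - 2 * Real.pi * d / m := by
      field_simp
    rw [this, Real.cos_two_pi_sub]

lemma cos_inj {m d d' : ℕ} (hm : 0 < m) (hd : 2 * d ≤ m) (hd' : 2 * d' ≤ m)
    (h : Real.cos (2 * Real.pi * (d : ℝ) / m) = Real.cos (2 * Real.pi * (d' : ℝ) / m)) : d = d' := by
  have hm' : (0 : ℝ) < m := by exact_mod_cast hm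
  have key : ∀ e : ℕ, 2 * e ≤ m → 2 * Real.pi * (e : ℝ) / m ∈ Set.Icc 0 Real.pi := by
    intro e he
    have he' : 2 * (e : ℝ) ≤ m := by exact_mod_cast he
    constructor
    · positivity
    · rw [div_le_iff₀ hm']
      nlinarith [Real.pi_pos]
  have h1 := Real.injOn_cos (key d hd) (key d' hd') h
  field_simp at h1
  have h2 : (d : ℝ) = d' := by
    have := Real.pi_pos
    nlinarith [h1]
  exact_mod_cast h2

/-- Arcs of regular polygons. -/
theorem polygon_mem_D {k : ℕ} (hk : 2 ≤ k) {n h : ℕ} (h1 : h + 1 ≤ n) (h2 : n ≤ 2 * h + 1) :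
    h ∈ D k n := by
  classical
  set m := 2 * h + 1 with hm
  have hm0 : 0 < m := by omega
  have hfold : ∀ x ∈ range n, ∀ y ∈ range n, x ≠ y →
      1 ≤ fold m (((x : ℤ) - y).natAbs) ∧ fold m (((x : ℤ) - y).natAbs) ≤ h := by
    intro x hx y hy hne
    rw [mem_range] at hx hy
    unfold fold
    omega
  have hiff : ∀ x ∈ range n, ∀ y ∈ range n, ∀ x' ∈ range n, ∀ y' ∈ range n, x ≠ y → x' ≠ y' →
      (dist (vert hk m x) (vert hk m y) = dist (vert hk m x') (vert hk m y') ↔
        fold m (((x : ℤ) - y).natAbs) = fold m (((x' : ℤ) - y').natAbs)) := by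
    intro x hx y hy x' hx' y' hy' hne hne'
    have hf := hfold x hx y hy hne
    have hf' := hfold x' hx' y' hy' hne'
    rw [mem_range] at hx hy hx' hy'
    have e1 : dist (vert hk m x) (vert hk m y) = dist (vert hk m x') (vert hk m y') ↔
        dist (vert hk m x) (vert hk m y) ^ 2 = dist (vert hk m x') (vert hk m y') ^ 2 := by
      rw [sq_eq_sq₀ dist_nonneg dist_nonneg]
    rw [e1, dist_vert, dist_vert, cos_fold (by omega) hm0, cos_fold (d := ((x' : ℤ) - y').natAbs) (by omega) hm0]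
    constructor
    · intro e
      refine cos_inj hm0 (by omega) (by omega) ?_
      linarith
    · intro e
      rw [e]
  have hinj : Set.InjOn (vert hk m) (range n : Set ℕ) := by
    intro x hx y hy hxy
    by_contra hne
    rw [mem_coe] at hx hy
    have hf := hfold x hx y hy hne
    rw [mem_range] at hx hy
    have h3 : dist (vert hk m x) (vert hk m y) ^ 2 = 0 := by rw [hxy, dist_self]; norm_num
    rw [dist_vert, cos_fold (by omega) hm0] at h3
    have h4 : Real.cos (2 * Real.pi * (fold m (((x : ℤ) - y).natAbs) : ℝ) / m)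
        = Real.cos (2 * Real.pi * ((0 : ℕ) : ℝ) / m) := by
      simp only [Nat.cast_zero, mul_zero, zero_div, Real.cos_zero]
      linarith
    have h5 := cos_inj hm0 (by omega) (by omega) h4
    omega
  refine ⟨(range n).image (vert hk m), ?_, ?_⟩
  · rw [card_image_of_injOn hinj, card_range]
  · rw [numDist_image (vert hk m) (range n) hinj (fun x y => fold m (((x : ℤ) - y).natAbs)) hiff]
    have : (range n).offDiag.image (fun p => fold m (((p.1 : ℤ) - p.2).natAbs)) = Icc 1 h := by
      ext d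
      rw [mem_image, mem_Icc]
      constructor
      · rintro ⟨p, hp, rfl⟩
        rw [mem_offDiag] at hp
        exact hfold _ hp.1 _ hp.2.1 hp.2.2
      · rintro ⟨hd1, hd2⟩
        refine ⟨(d, 0), ?_, ?_⟩
        · rw [mem_offDiag, mem_range, mem_range]
          simp only
          omega
        · simp only [fold]
          omega
    rw [this, Nat.card_Icc]
    omega

/-- In dimension at least two every number between `n / 2` and `n choose 2` occurs. -/
theorem half_mem_D {k : ℕ} (hk : 2 ≤ k) {n h : ℕ} (hn : 1 ≤ n) (h1 : n / 2 ≤ h)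
    (h2 : h ≤ n.choose 2) : h ∈ D k n := by
  by_cases h3 : n - 1 ≤ h
  · exact line_mem_D (by omega) hn h3 h2
  · exact polygon_mem_D hk (by omega) (by omega)

/-- Nestedness of the value sets. -/
theorem nested {k : ℕ} (hk : 1 ≤ k) {n n' h : ℕ} (hn' : 1 ≤ n') (hle : n' ≤ n) (hh : h ∈ D k n)
    (h2 : h ≤ n'.choose 2) : h ∈ D k n' := by
  rcases Nat.lt_or_ge k 2 with hk2 | hk2
  · have : k = 1 := by omega
    subst this
    rw [D_one (by omega)] at hh ⊢
    exact ⟨(by omega : n' - 1 ≤ n - 1).trans hh.1, h2⟩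
  · rcases le_or_gt (n' / 2) h with h3 | h3
    · exact half_mem_D hk2 hn' h3 h2
    · exact removal hh (by omega) hle

end Pool.Agent.H313DD
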