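import Mathlib
import Pool.Agent.H313DD.Polygon

namespace Pool.Agent.H313DD

open Finset

variable {k : ℕ}

/-- sum of the squares of the coordinates. -/
def q (w : Fin k → ℤ) : ℤ := ∑ i, w i ^ 2

lemma q_nonneg (w : Fin k → ℤ) : 0 ≤ q w := sum_nonneg fun _ _ => sq_nonneg _

lemma q_neg (w : Fin k → ℤ) : q (-w) = q w := by simp [q]

lemma q_sub_comm (x y : Fin k → ℤ) : q (x - y) = q (y - x) := by
  rw [← q_neg, neg_sub]

lemma q_eq_zero {w : Fin k → ℤ} : q w = 0 ↔ w = 0 := by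
  unfold q
  rw [sum_eq_zero_iff_of_nonneg fun _ _ => sq_nonneg _]
  constructor
  · intro h
    ext i
    simpa using h i (mem_univ i)
  · rintro rfl i _
    simp

lemma q_pos {w : Fin k → ℤ} (hw : w ≠ 0) : 0 < q w :=
  lt_of_le_of_ne (q_nonneg w) fun e => hw (q_eq_zero.mp e.symm)

lemma le_q (w : Fin k → ℤ) (i : Fin k) : w i ^ 2 ≤ q w :=
  single_le_sum (f := fun i => w i ^ 2) (fun _ _ => sq_nonneg _) (mem_univ i)

/-- set of (squared) distances. -/
def Δ (S : Finset (Fin k → ℤ)) : Finset ℤ := S.offDiag.image (fun p => q (p.1 - p.2))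

lemma mem_Δ {S : Finset (Fin k → ℤ)} {d : ℤ} :
    d ∈ Δ S ↔ ∃ x ∈ S, ∃ y ∈ S, x ≠ y ∧ q (x - y) = d := by
  unfold Δ
  rw [mem_image]
  constructor
  · rintro ⟨p, hp, rfl⟩
    rw [mem_offDiag] at hp
    exact ⟨p.1, hp.1, p.2, hp.2.1, hp.2.2, rfl⟩
  · rintro ⟨x, hx, y, hy, hne, rfl⟩
    exact ⟨(x, y), mem_offDiag.mpr ⟨hx, hy, hne⟩, rfl⟩

lemma Δ_mono {S T : Finset (Fin k → ℤ)} (h : S ⊆ T) : Δ S ⊆ Δ T :=
  image_subset_image (offDiag_mono h)

/-- embedding of the lattice. -/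
noncomputable def emb (w : Fin k → ℤ) : EuclideanSpace ℝ (Fin k) :=
  WithLp.toLp 2 (fun i => (w i : ℝ))

lemma dist_emb (x y : Fin k → ℤ) : dist (emb x) (emb y) ^ 2 = (q (x - y) : ℝ) := by
  unfold emb q
  rw [EuclideanSpace.dist_eq, Real.sq_sqrt (sum_nonneg fun _ _ => sq_nonneg _)]
  push_cast
  refine sum_congr rfl fun i _ => ?_
  rw [Real.dist_eq, sq_abs]
  simp

lemma emb_injective : Function.Injective (emb : (Fin k → ℤ) → EuclideanSpace ℝ (Fin k)) := by
  intro x y h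
  have h1 := dist_emb x y
  rw [h, dist_self] at h1
  have h2 : (q (x - y) : ℝ) = 0 := by rw [← h1]; norm_num
  have h3 : q (x - y) = 0 := by exact_mod_cast h2
  exact sub_eq_zero.mp (q_eq_zero.mp h3)

lemma numDist_emb [DecidableEq (EuclideanSpace ℝ (Fin k))] (S : Finset (Fin k → ℤ)) :
    numDist (S.image emb) = (Δ S).card := by
  rw [numDist_image emb S emb_injective.injOn (fun x y => q (x - y))]
  · rfl
  · intro x _ y _ x' _ y' _ _ _
    have e1 : dist (emb x) (emb y) = dist (emb x') (emb y') ↔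
        dist (emb x) (emb y) ^ 2 = dist (emb x') (emb y') ^ 2 := by
      rw [sq_eq_sq₀ dist_nonneg dist_nonneg]
    rw [e1, dist_emb, dist_emb]
    exact Int.cast_inj

/-- Adding points which create at most one new distance each. -/
lemma tune (Z : Finset (Fin k → ℤ)) (ℓ : Fin k → ℤ) (R : Finset (Fin k → ℤ))
    (hℓ : ∀ y ∈ Z, ℓ ≠ y → q (ℓ - y) ∈ Δ Z)
    (h1 : ∀ x ∈ R, ∀ y ∈ Z, x ≠ y → q (x - y) ∈ Δ Z)
    (h2 : ∀ x ∈ R, ∀ x' ∈ R, x ≠ x' → q (x - x') ∈ Δ Z) :
    ∀ h : ℕ, (Δ Z).card ≤ h → h ≤ (Δ (insert ℓ Z ∪ R)).card →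
      ∃ R' ⊆ R, (Δ (insert ℓ Z ∪ R')).card = h := by
  classical
  have hS0 : Δ (insert ℓ Z) = Δ Z := by
    apply Finset.Subset.antisymm _ (Δ_mono (subset_insert _ _))
    intro d hd
    rw [mem_Δ] at hd
    obtain ⟨x, hx, y, hy, hne, rfl⟩ := hd
    rw [mem_insert] at hx hy
    rcases hx with rfl | hx
    · rcases hy with rfl | hy
      · exact absurd rfl hne
      · exact hℓ y hy hne
    · rcases hy with rfl | hy
      · rw [q_sub_comm]; exact hℓ x hx hne.symm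
      · exact mem_Δ.mpr ⟨x, hx, y, hy, hne, rfl⟩
  induction R using Finset.induction_on with
  | empty =>
    intro h ha hb
    refine ⟨∅, subset_rfl, ?_⟩
    rw [union_empty, hS0] at hb ⊢
    omega
  | insert x R hxR ih =>
    intro h ha hb
    have ih' := ih (fun x hx => h1 x (mem_insert_of_mem hx))
      (fun x hx x' hx' => h2 x (mem_insert_of_mem hx) x' (mem_insert_of_mem hx'))
    rcases le_or_gt h (Δ (insert ℓ Z ∪ R)).card with hle | hgt
    · obtain ⟨R', hR', hc⟩ := ih' h ha hle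
      exact ⟨R', hR'.trans (subset_insert _ _), hc⟩
    · refine ⟨insert x R, subset_rfl, ?_⟩
      have hEsub : Δ Z ⊆ Δ (insert ℓ Z ∪ R) :=
        Δ_mono ((subset_insert _ _).trans subset_union_left)
      have key : ∀ y ∈ insert ℓ Z ∪ R, x ≠ y →
          q (x - y) ∈ insert (q (x - ℓ)) (Δ (insert ℓ Z ∪ R)) := by
        intro y hy hne
        rw [mem_union, mem_insert] at hy
        rcases hy with (rfl | hy) | hy
        · exact mem_insert_self _ _
        · exact mem_insert_of_mem (hEsub (h1 x (mem_insert_self _ _) y hy hne))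
        · exact mem_insert_of_mem (hEsub (h2 x (mem_insert_self _ _) y (mem_insert_of_mem hy) hne))
      have hsub : Δ (insert ℓ Z ∪ insert x R) ⊆ insert (q (x - ℓ)) (Δ (insert ℓ Z ∪ R)) := by
        intro d hd
        rw [mem_Δ] at hd
        obtain ⟨a, ha, b, hb, hne, rfl⟩ := hd
        rw [union_insert, mem_insert] at ha hb
        rcases ha with rfl | ha
        · rcases hb with rfl | hb
          · exact absurd rfl hne
          · exact key b hb hne
        · rcases hb with hb | hb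
          · rw [hb, q_sub_comm a x]; exact key a ha (by rw [← hb]; exact hne.symm)
          · exact mem_insert_of_mem (mem_Δ.mpr ⟨a, ha, b, hb, hne, rfl⟩)
      have h3 := (card_le_card hsub).trans (card_insert_le _ _)
      omega

/-- the lattice points of the truncated ball. -/
noncomputable def Z (hk : 2 ≤ k) (r : ℕ) : Finset (Fin k → ℤ) :=
  (Fintype.piFinset (fun _ : Fin k => Icc (-(r : ℤ)) r)).filter
    (fun y => q y ≤ (r : ℤ) ^ 2 ∧ 5 * |y ⟨0, by omega⟩| ≤ 4 * (r : ℤ))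

lemma mem_Z {hk : 2 ≤ k} {r : ℕ} {y : Fin k → ℤ} :
    y ∈ Z hk r ↔ q y ≤ (r : ℤ) ^ 2 ∧ 5 * |y ⟨0, by omega⟩| ≤ 4 * (r : ℤ) := by
  unfold Z
  rw [mem_filter, Fintype.mem_piFinset]
  constructor
  · exact fun h => h.2
  · intro h
    refine ⟨fun i => ?_, h⟩
    rw [mem_Icc, ← abs_le]
    exact abs_le_of_sq_le_sq ((le_q y i).trans h.1) (by positivity)

lemma half1 (a : ℤ) : 2 * |(a + 1) / 2| ≤ |a| + 1 := by
  rcases abs_cases a with h | h <;> rcases abs_cases ((a + 1) / 2) with h' | h' <;> omega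

lemma half2 (a : ℤ) : 2 * |(a + 1) / 2 - a| ≤ |a| + 1 := by
  rcases abs_cases a with h | h <;> rcases abs_cases ((a + 1) / 2 - a) with h' | h' <;> omega

/-- All lattice distances up to `2 r - k` occur in the truncated ball. -/
lemma claimA (hk : 2 ≤ k) {r : ℕ} (hr : 5 ≤ r) (hkr : k ≤ 2 * r) {w : Fin k → ℤ} (hw : w ≠ 0)
    (hq : q w ≤ (2 * (r : ℤ) - k) ^ 2) : q w ∈ Δ (Z hk r) := by
  classical
  have : Nonempty (Fin k) := ⟨⟨0, by omega⟩⟩
  obtain ⟨j, -, hj⟩ := (univ : Finset (Fin k)).exists_min_image (fun i => |w i|) univ_nonempty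
  set i0 : Fin k := ⟨0, by omega⟩ with hi0
  set w' : Fin k → ℤ := fun i => w (Equiv.swap i0 j i) with hw'
  have hqw : q w' = q w := by
    unfold q
    exact Equiv.sum_comp (Equiv.swap i0 j) (fun i => w i ^ 2)
  have hw'0 : w' i0 = w j := by simp [hw']
  have hw'ne : w' ≠ 0 := by
    intro e
    apply hw
    ext i
    have := congrFun e (Equiv.swap i0 j i)
    simpa [hw'] using this
  -- bounds for the entries
  have hent : ∀ i, |w' i| ≤ 2 * (r : ℤ) - k := by
    intro i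
    have hkr' : (k : ℤ) ≤ 2 * r := by exact_mod_cast hkr
    refine abs_le_of_sq_le_sq ((le_q w' i).trans ?_) (by linarith)
    rw [hqw]; exact hq
  have hmin : (k : ℤ) * (w j) ^ 2 ≤ q w := by
    have : ∑ _i : Fin k, (w j) ^ 2 ≤ q w := by
      unfold q
      refine sum_le_sum fun i _ => ?_
      exact sq_le_sq.mpr (hj i (mem_univ i))
    simpa using this
  set y : Fin k → ℤ := fun i => (w' i + 1) / 2 with hy
  set y' : Fin k → ℤ := fun i => y i - w' i with hy'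
  have hkpos : (2 : ℤ) ≤ k := by exact_mod_cast hk
  have hr' : (5 : ℤ) ≤ r := by exact_mod_cast hr
  have hb0 : 5 * (|w j| + 1) ≤ 8 * (r : ℤ) := by
    by_contra hcon
    push Not at hcon
    have h1 : (8 * (r : ℤ) - 4) ≤ 5 * |w j| := by omega
    have h2 : (8 * (r : ℤ) - 4) ^ 2 ≤ 25 * (w j) ^ 2 := by
      have := pow_le_pow_left₀ (by linarith) h1 2
      rw [mul_pow, sq_abs] at this
      linarith
    have h3 : 2 * (w j) ^ 2 ≤ (2 * (r : ℤ) - k) ^ 2 := by
      refine le_trans ?_ (hmin.trans hq)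
      exact mul_le_mul_of_nonneg_right hkpos (sq_nonneg _)
    have h4 : (2 * (r : ℤ) - k) ^ 2 ≤ 4 * (r : ℤ) ^ 2 := by
      have hkr' : (k : ℤ) ≤ 2 * r := by exact_mod_cast hkr
      nlinarith
    nlinarith
  have hsum : ∀ z : Fin k → ℤ, (∀ i, 2 * |z i| ≤ |w' i| + 1) → q z ≤ (r : ℤ) ^ 2 := by
    intro z hz
    have h1 : 4 * q z ≤ q w' + 2 * ∑ i, |w' i| + k := by
      unfold q
      rw [mul_sum, mul_sum, ← sum_add_distrib]
      have : (k : ℤ) = ∑ _i : Fin k, (1 : ℤ) := by simp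
      rw [this, ← sum_add_distrib]
      refine sum_le_sum fun i _ => ?_
      have h2 := hz i
      have h3 : (2 * |z i|) ^ 2 ≤ (|w' i| + 1) ^ 2 := pow_le_pow_left₀ (by positivity) h2 2
      have h4 := sq_abs (z i)
      have h5 := sq_abs (w' i)
      nlinarith
    have h2 : ∑ i, |w' i| ≤ k * (2 * (r : ℤ) - k) := by
      have : ∑ i, |w' i| ≤ ∑ _i : Fin k, (2 * (r : ℤ) - k) := sum_le_sum fun i _ => hent i
      rwa [sum_const, card_univ, Fintype.card_fin, nsmul_eq_mul] at this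
    rw [hqw] at h1
    nlinarith
  rw [mem_Δ]
  refine ⟨y, mem_Z.mpr ⟨hsum y ?_, ?_⟩, y', mem_Z.mpr ⟨hsum y' ?_, ?_⟩, ?_, ?_⟩
  · intro i
    exact half1 _
  · have : 2 * |y i0| ≤ |w j| + 1 := by
      rw [← hw'0]
      exact half1 _
    linarith
  · intro i
    exact half2 _
  · have : 2 * |y' i0| ≤ |w j| + 1 := by
      rw [← hw'0]
      exact half2 _
    linarith
  · intro e
    apply hw'ne
    ext i
    have := congrFun e i
    simp only [hy'] at this
    simp only [Pi.zero_apply]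
    linarith
  · rw [← hqw]
    congr 1
    ext i
    simp [hy']

lemma q_sub_le (x y : Fin k → ℤ) : q (x - y) ≤ 2 * q x + 2 * q y := by
  unfold q
  rw [mul_sum, mul_sum, ← sum_add_distrib]
  refine sum_le_sum fun i _ => ?_
  simp only [Pi.sub_apply]
  nlinarith [sq_nonneg (x i + y i)]

lemma Δ_Z_le {hk : 2 ≤ k} {r : ℕ} {d : ℤ} (hd : d ∈ Δ (Z hk r)) : 0 < d ∧ d ≤ 4 * (r : ℤ) ^ 2 := by
  rw [mem_Δ] at hd
  obtain ⟨x, hx, y, hy, hne, rfl⟩ := hd
  rw [mem_Z] at hx hy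
  refine ⟨q_pos (sub_ne_zero.mpr hne), ?_⟩
  have := q_sub_le x y
  linarith [hx.1, hy.1]

/-- special points. -/
def pt (hk : 2 ≤ k) (T b : ℤ) : Fin k → ℤ := fun i =>
  (if i = ⟨0, by omega⟩ then T else 0) + (if i = ⟨1, by omega⟩ then b else 0)

lemma ne01 (hk : 2 ≤ k) : (⟨0, by omega⟩ : Fin k) ≠ ⟨1, by omega⟩ := by
  intro e; simpa using congrArg Fin.val e

lemma pt_sub (hk : 2 ≤ k) (T b T' b' : ℤ) : pt hk T b - pt hk T' b' = pt hk (T - T') (b - b') := by
  ext i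
  simp only [pt, Pi.sub_apply]
  split_ifs <;> ring

lemma pt_zero (hk : 2 ≤ k) (T b : ℤ) : pt hk T b ⟨0, by omega⟩ = T := by
  simp [pt]

lemma pt_one (hk : 2 ≤ k) (T b : ℤ) : pt hk T b ⟨1, by omega⟩ = b := by
  simp [pt]

lemma sum_pt (hk : 2 ≤ k) (T b : ℤ) (y : Fin k → ℤ) :
    ∑ i, pt hk T b i * y i = T * y ⟨0, by omega⟩ + b * y ⟨1, by omega⟩ := by
  simp only [pt, add_mul, ite_mul, zero_mul]
  rw [sum_add_distrib, sum_ite_eq' univ, sum_ite_eq' univ]
  simp

lemma q_pt (hk : 2 ≤ k) (T b : ℤ) : q (pt hk T b) = T ^ 2 + b ^ 2 := by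
  have h := sum_pt hk T b (pt hk T b)
  rw [pt_zero, pt_one] at h
  unfold q
  rw [← sq, ← sq] at h
  rw [← h]
  exact sum_congr rfl fun i _ => sq _

lemma q_pt_sub (hk : 2 ≤ k) (T b : ℤ) (y : Fin k → ℤ) :
    q (pt hk T b - y) = T ^ 2 + b ^ 2 + q y
      - 2 * (T * y ⟨0, by omega⟩ + b * y ⟨1, by omega⟩) := by
  rw [← q_pt hk, ← sum_pt hk]
  unfold q
  rw [mul_sum, ← sum_add_distrib, ← sum_sub_distrib]
  refine sum_congr rfl fun i _ => ?_
  simp only [Pi.sub_apply]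
  ring

end Pool.Agent.H313DD
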