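import Mathlib
import Pool.Agent.H313DD.Polygon

namespace Pool.Agent.H313DD

open Finset

/-- vertices `e_0, …, e_{m-1}` and one more point `∑ c_i e_i`. -/
noncomputable def sv (k m : ℕ) (c : ℕ → ℝ) (j : ℕ) : EuclideanSpace ℝ (Fin k) :=
  WithLp.toLp 2 (fun i : Fin k => if j < m then (if (i : ℕ) = j then 1 else 0)
    else (if (i : ℕ) < m then c i else 0))

lemma sum_fin_lt {k m : ℕ} (hm : m ≤ k) (f : ℕ → ℝ) :
    ∑ i : Fin k, (if (i : ℕ) < m then f i else 0) = ∑ i ∈ range m, f i := by
  rw [Fin.sum_univ_eq_sum_range (fun i => if i < m then f i else 0) k, ← sum_filter]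
  congr 1
  ext i
  rw [mem_filter, mem_range, mem_range]
  omega

lemma sum_fin_eq {k m : ℕ} (hm : m < k) (f : ℕ → ℝ) :
    ∑ i : Fin k, (if (i : ℕ) = m then f i else 0) = f m := by
  rw [Fin.sum_univ_eq_sum_range (fun i => if i = m then f i else 0) k, sum_ite_eq' (range k) m]
  simp [hm]

/-- squared distances. -/
noncomputable def sd (m : ℕ) (c : ℕ → ℝ) (x y : ℕ) : ℝ :=
  if x < m ∧ y < m then 2 else (∑ i ∈ range m, c i ^ 2) + 1 - 2 * c (min x y)

lemma dist_sv {k m : ℕ} (hm : m ≤ k) (c : ℕ → ℝ) {x y : ℕ} (hx : x ≤ m) (hy : y ≤ m) (hne : x ≠ y) :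
    dist (sv k m c x) (sv k m c y) ^ 2 = sd m c x y := by
  have key : ∀ x y : ℕ, x < y → y ≤ m → dist (sv k m c x) (sv k m c y) ^ 2 = sd m c x y := by
    intro x y hxy hy
    unfold sv sd
    rw [EuclideanSpace.dist_eq, Real.sq_sqrt (sum_nonneg fun i _ => sq_nonneg _)]
    have hx' : x < m := by omega
    rw [min_eq_left hxy.le]
    rcases Nat.lt_or_ge y m with hy' | hy'
    · simp only [hx', hy', if_true, and_self]
      have : ∀ i : Fin k, dist (if (i : ℕ) = x then (1 : ℝ) else 0) (if (i : ℕ) = y then 1 else 0) ^ 2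
          = (if (i : ℕ) = x then (1 : ℝ) else 0) + (if (i : ℕ) = y then (1 : ℝ) else 0) := by
        intro i
        rw [Real.dist_eq, sq_abs]
        by_cases h1 : (i : ℕ) = x
        · have h2 : (i : ℕ) ≠ y := by omega
          rw [if_pos h1, if_neg h2]; norm_num
        · by_cases h2 : (i : ℕ) = y
          · simp [h2]
            have : y ≠ x := by omega
            simp [this]
          · simp [h1, h2]
      simp only [this]
      rw [sum_add_distrib, sum_fin_eq (by omega) (fun _ => (1 : ℝ)),
        sum_fin_eq (by omega) (fun _ => (1 : ℝ))]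
      norm_num
    · have hyn : ¬ y < m := by omega
      simp only [hx', hyn, if_true, if_false, and_false]
      have : ∀ i : Fin k, dist (if (i : ℕ) = x then (1 : ℝ) else 0) (if (i : ℕ) < m then c i else 0) ^ 2
          = (if (i : ℕ) < m then c i ^ 2 else 0) + (if (i : ℕ) = x then (1 - 2 * c i : ℝ) else 0) := by
        intro i
        rw [Real.dist_eq, sq_abs]
        by_cases h1 : (i : ℕ) = x
        · have h2 : (i : ℕ) < m := by omega
          rw [if_pos h1, if_pos h2, if_pos h1, if_pos h2]
          ring
        · by_cases h2 : (i : ℕ) < m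
          · rw [if_neg h1, if_pos h2, if_neg h1, if_pos h2]; ring
          · rw [if_neg h1, if_neg h2, if_neg h1, if_neg h2]; ring
      simp only [this]
      rw [sum_add_distrib, sum_fin_lt hm (fun i => c i ^ 2), sum_fin_eq (by omega) (fun i => 1 - 2 * c i)]
      ring
  rcases Nat.lt_or_gt_of_ne hne with h | h
  · exact key x y h hy
  · rw [dist_comm, key y x h hx]
    unfold sd
    rw [min_comm]
    simp only [and_comm]

lemma simplex_aux {k m : ℕ} (hm : m ≤ k) (c : ℕ → ℝ)
    (hpos : ∀ i < m, 0 < (∑ i ∈ range m, c i ^ 2) + 1 - 2 * c i) :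
    ((range (m + 1)).offDiag.image (fun p => sd m c p.1 p.2)).card ∈ D k (m + 1) := by
  classical
  have hpos' : ∀ x ≤ m, ∀ y ≤ m, x ≠ y → 0 < sd m c x y := by
    intro x hx y hy hne
    unfold sd
    split_ifs with h
    · norm_num
    · exact hpos _ (by omega)
  have hinj : Set.InjOn (sv k m c) (range (m + 1) : Set ℕ) := by
    intro x hx y hy hxy
    by_contra hne
    rw [mem_coe, mem_range] at hx hy
    have h1 := dist_sv hm c (by omega : x ≤ m) (by omega : y ≤ m) hne
    rw [hxy, dist_self] at h1
    have := hpos' x (by omega) y (by omega) hne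
    rw [← h1] at this
    norm_num at this
  refine ⟨(range (m + 1)).image (sv k m c), ?_, ?_⟩
  · rw [card_image_of_injOn hinj, card_range]
  · rw [numDist_image (sv k m c) _ hinj (sd m c)]
    intro x hx y hy x' hx' y' hy' hne hne'
    rw [mem_range] at hx hy hx' hy'
    rw [← dist_sv hm c (by omega) (by omega) hne, ← dist_sv hm c (by omega) (by omega) hne']
    rw [sq_eq_sq₀ dist_nonneg dist_nonneg]

/-- Small numbers of distances for at most `k + 1` points. -/
theorem simplex_mem_D {k n h : ℕ} (hn : 2 ≤ n) (hk : n ≤ k + 1) (h1 : 1 ≤ h) (h2 : h ≤ n)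
    (h3 : h ≤ n.choose 2) : h ∈ D k n := by
  classical
  obtain ⟨m, rfl⟩ : ∃ m, n = m + 1 := ⟨n - 1, by omega⟩
  have hm : m ≤ k := by omega
  have hm1 : 1 ≤ m := by omega
  rcases Nat.lt_or_ge 1 h with hh | hh
  · -- at least two distances
    have hm2 : 2 ≤ m := by
      by_contra hcon
      have : m = 1 := by omega
      subst this
      norm_num [Nat.choose] at h3
      omega
    let c : ℕ → ℝ := fun i => 5 + (min i (h - 2) : ℕ)
    have hcge : ∀ i, 5 ≤ c i := fun i => by simp only [c]; linarith [(Nat.cast_nonneg (min i (h - 2)) : (0:ℝ) ≤ _)]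
    have hP : ∀ i < m, c i ^ 2 ≤ ∑ i ∈ range m, c i ^ 2 := fun i hi =>
      single_le_sum (f := fun i => c i ^ 2) (fun _ _ => sq_nonneg _) (mem_range.mpr hi)
    have hpos : ∀ i < m, 2 < (∑ i ∈ range m, c i ^ 2) + 1 - 2 * c i := by
      intro i hi
      have := hP i hi
      have := hcge i
      nlinarith
    have hres := simplex_aux hm c (fun i hi => by linarith [hpos i hi])
    have hcard : ((range (m + 1)).offDiag.image (fun p => sd m c p.1 p.2)).card = h := by
      have himg : (range (m + 1)).offDiag.image (fun p => sd m c p.1 p.2)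
          = insert 2 ((range (h - 1)).image (fun j : ℕ =>
            (∑ i ∈ range m, c i ^ 2) + 1 - 2 * (5 + (j : ℝ)))) := by
        ext d
        rw [mem_image, mem_insert, mem_image]
        constructor
        · rintro ⟨⟨x, y⟩, hp, rfl⟩
          rw [mem_offDiag, mem_range, mem_range] at hp
          simp only at hp ⊢
          unfold sd
          split_ifs with hxy
          · exact Or.inl rfl
          · right
            refine ⟨min (min x y) (h - 2), mem_range.mpr (by omega), rfl⟩
        · rintro (rfl | ⟨j, hj, rfl⟩)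
          · refine ⟨(0, 1), ?_, ?_⟩
            · rw [mem_offDiag, mem_range, mem_range]; simp only; omega
            · unfold sd
              rw [if_pos (by simp only; omega)]
          · rw [mem_range] at hj
            refine ⟨(j, m), ?_, ?_⟩
            · rw [mem_offDiag, mem_range, mem_range]; simp only; omega
            · unfold sd
              rw [if_neg (by simp only; omega)]
              simp only [c]
              rw [min_eq_left (by omega : j ≤ m), min_eq_left (by omega : j ≤ h - 2)]
      rw [himg, card_insert_of_notMem, card_image_of_injOn, card_range]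
      · omega
      · intro a _ b _ hab
        simp only at hab
        have : (a : ℝ) = b := by linarith
        exact_mod_cast this
      · rw [mem_image]
        rintro ⟨j, hj, hj2⟩
        rw [mem_range] at hj
        have h5 := hpos j (by omega)
        have h6 : c j = 5 + (j : ℝ) := by
          simp only [c]
          rw [min_eq_left (by omega : j ≤ h - 2)]
        rw [h6] at h5
        linarith
    rwa [hcard] at hres
  · -- regular simplex
    have hh1 : h = 1 := by omega
    subst hh1
    set c0 : ℝ := (1 + Real.sqrt (m + 1)) / m with hc0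
    have hm0 : (0 : ℝ) < m := by exact_mod_cast (by omega : 0 < m)
    have hc : (m : ℝ) * c0 ^ 2 + 1 - 2 * c0 = 2 := by
      rw [hc0]
      field_simp
      nlinarith [Real.sq_sqrt (by positivity : (0 : ℝ) ≤ (m : ℝ) + 1)]
    have hsum : ∑ i ∈ range m, (fun _ : ℕ => c0) i ^ 2 = m * c0 ^ 2 := by
      simp
    have hres := simplex_aux hm (fun _ => c0) (fun i hi => by rw [hsum, hc]; norm_num)
    have hcard : ((range (m + 1)).offDiag.image (fun p => sd m (fun _ => c0) p.1 p.2)).card = 1 := by
      have himg : (range (m + 1)).offDiag.image (fun p => sd m (fun _ => c0) p.1 p.2) = {2} := by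
        ext d
        rw [mem_image, mem_singleton]
        constructor
        · rintro ⟨⟨x, y⟩, hp, rfl⟩
          unfold sd
          split_ifs with hxy
          · rfl
          · rw [hsum, hc]
        · rintro rfl
          refine ⟨(0, 1), ?_, ?_⟩
          · rw [mem_offDiag, mem_range, mem_range]; simp only; omega
          · unfold sd
            split_ifs with hxy
            · rfl
            · rw [hsum, hc]
      rw [himg, card_singleton]
    rwa [hcard] at hres

lemma one_le_of_mem_D {k n h : ℕ} (hn : 2 ≤ n) (hh : h ∈ D k n) : 1 ≤ h ∧ h ≤ n.choose 2 := by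
  classical
  obtain ⟨X, hX, rfl⟩ := hh
  refine ⟨?_, hX ▸ numDist_le X⟩
  rw [numDist_def]
  obtain ⟨a, ha, b, hb, hne⟩ := one_lt_card.mp (by omega : 1 < X.card)
  exact card_pos.mpr ⟨_, mem_image_of_mem _ (mem_offDiag.mpr ⟨ha, hb, hne⟩ : (a, b) ∈ X.offDiag)⟩

/-- At most `k + 1` points. -/
theorem D_simplex {k n : ℕ} (hk : 1 ≤ k) (hn : 2 ≤ n) (hnk : n ≤ k + 1) :
    D k n = Set.Icc 1 (n.choose 2) := by
  ext h
  rw [Set.mem_Icc]
  constructor
  · exact one_le_of_mem_D hn
  · rintro ⟨h1, h2⟩
    rcases le_or_gt h n with h3 | h3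
    · exact simplex_mem_D hn hnk h1 h3 h2
    · exact line_mem_D hk (by omega) (by omega) h2

end Pool.Agent.H313DD
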