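import Mathlib
import Pool.Agent.H313DD.Lattice

namespace Pool.Agent.H313DD

open Finset

variable {k : ℕ}

/-- the threshold for the radius. -/
def r0 (k : ℕ) : ℕ := 400 * (9 + 4 * k) ^ 2

/-- the points of the outer region. -/
def RR (hk : 2 ≤ k) (r : ℕ) : Finset (Fin k → ℤ) :=
  ((Icc (r + 1) (r + r / 20)) ×ˢ (range (Nat.sqrt (4 * r) + 1))).image
    (fun x : ℕ × ℕ => pt hk (x.1 : ℤ) (x.2 : ℤ))

lemma mem_RR {hk : 2 ≤ k} {r : ℕ} {x : Fin k → ℤ} : x ∈ RR hk r ↔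
    ∃ T b : ℕ, r + 1 ≤ T ∧ T ≤ r + r / 20 ∧ b ≤ Nat.sqrt (4 * r) ∧ x = pt hk T b := by
  unfold RR
  rw [mem_image]
  constructor
  · rintro ⟨⟨T, b⟩, h, rfl⟩
    rw [mem_product, mem_Icc, mem_range] at h
    exact ⟨T, b, h.1.1, h.1.2, by have := h.2; simp only at this; omega, rfl⟩
  · rintro ⟨T, b, h1, h2, h3, rfl⟩
    refine ⟨(T, b), ?_, rfl⟩
    rw [mem_product, mem_Icc, mem_range]
    exact ⟨⟨h1, h2⟩, by simp only; omega⟩

lemma r0_facts {r : ℕ} (hr : r0 k ≤ r) : (32400 : ℤ) ≤ r ∧ 400 * (9 + 4 * (k : ℤ)) ^ 2 ≤ r ∧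
    (3600 : ℤ) * (9 + 4 * k) ≤ r := by
  unfold r0 at hr
  have h1 : (400 * (9 + 4 * (k : ℤ)) ^ 2) ≤ r := by exact_mod_cast hr
  have hk0 : (0 : ℤ) ≤ k := by positivity
  refine ⟨by nlinarith, h1, by nlinarith⟩

lemma b_bound {r b : ℕ} (hr : r0 k ≤ r) (hb : b ≤ Nat.sqrt (4 * r)) :
    (b : ℤ) ^ 2 ≤ 4 * r ∧ 20 * (b : ℤ) ≤ r := by
  have h1 : b * b ≤ 4 * r := Nat.le_sqrt.mp hb
  have h2 : (b : ℤ) ^ 2 ≤ 4 * r := by rw [sq]; exact_mod_cast h1
  refine ⟨h2, ?_⟩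
  obtain ⟨h3, -, -⟩ := r0_facts hr
  by_contra hcon
  push Not at hcon
  nlinarith

/-- points of the outer region have small distances to the truncated ball. -/
lemma far_le (hk : 2 ≤ k) {r : ℕ} (hr : r0 k ≤ r) {T b : ℤ} (hT : 20 * |T| ≤ 21 * r)
    (hb0 : 0 ≤ b) (hb : b ^ 2 ≤ 4 * r) (hb' : 20 * b ≤ r) {y : Fin k → ℤ} (hy : y ∈ Z hk r) :
    q (pt hk T b - y) ≤ (2 * (r : ℤ) - k) ^ 2 := by
  obtain ⟨h1, h2, h3⟩ := r0_facts hr
  rw [mem_Z] at hy
  obtain ⟨hy1, hy2⟩ := hy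
  rw [q_pt_sub]
  set y0 := y ⟨0, by omega⟩ with hy0
  set y1 := y ⟨1, by omega⟩ with hy1'
  have hy1r : |y1| ≤ r := abs_le_of_sq_le_sq ((le_q y _).trans hy1) (by positivity)
  have e1 : -(T * y0) ≤ |T| * |y0| := by
    rw [← abs_mul]; exact neg_le_abs _
  have e2 : -(b * y1) ≤ b * r := by
    have : -(b * y1) ≤ |b * y1| := neg_le_abs _
    rw [abs_mul, abs_of_nonneg hb0] at this
    exact this.trans (mul_le_mul_of_nonneg_left hy1r hb0)
  have hr0 : (0 : ℤ) ≤ r := by positivity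
  have e3 : 100 * (|T| * |y0|) ≤ 84 * (r : ℤ) ^ 2 := by
    have : (20 * |T|) * (5 * |y0|) ≤ (21 * r) * (4 * r) :=
      mul_le_mul hT hy2 (by positivity) (by positivity)
    nlinarith
  have e4 : 400 * T ^ 2 ≤ 441 * (r : ℤ) ^ 2 := by
    have := pow_le_pow_left₀ (by positivity) hT 2
    rw [mul_pow, sq_abs] at this
    nlinarith
  have e5 : 20 * (b * r) ≤ (r : ℤ) ^ 2 := by nlinarith
  have hk0 : (0 : ℤ) ≤ k := by positivity
  have e6 : 3600 * (9 + 4 * k) * (r : ℤ) ≤ (r : ℤ) ^ 2 := by nlinarith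
  nlinarith

lemma r_pos {r : ℕ} (hr : r0 k ≤ r) : 32400 ≤ r := by
  have := (r0_facts hr).1
  exact_mod_cast this

lemma k_le {r : ℕ} (hr : r0 k ≤ r) : k ≤ r := by
  have h := (r0_facts hr).2.2
  have : (k : ℤ) ≤ r := by
    have hk0 : (0 : ℤ) ≤ k := by positivity
    linarith
  exact_mod_cast this

lemma outer_mem (hk : 2 ≤ k) {r : ℕ} (hr : r0 k ≤ r) {T b : ℤ} (hT : 20 * |T| ≤ 21 * r)
    (hb0 : 0 ≤ b) (hb : b ^ 2 ≤ 4 * r) (hb' : 20 * b ≤ r) {y : Fin k → ℤ} (hy : y ∈ Z hk r)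
    (hne : pt hk T b ≠ y) : q (pt hk T b - y) ∈ Δ (Z hk r) :=
  claimA hk (by have := r_pos hr; omega) (by have := k_le hr; omega) (sub_ne_zero.mpr hne)
    (far_le hk hr hT hb0 hb hb' hy)

/-- the gain from the outer region. -/
lemma gain (hk : 2 ≤ k) {r : ℕ} (hr : r0 k ≤ r) :
    (Δ (Z hk r)).card + (r / 20) * (Nat.sqrt (4 * r) + 1)
      ≤ (Δ (insert (pt hk (-(r : ℤ)) 0) (Z hk r) ∪ RR hk r)).card := by
  classical
  obtain ⟨h1, h2, h3⟩ := r0_facts hr
  set ℓ := pt hk (-(r : ℤ)) 0 with hℓ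
  let val : ℕ × ℕ → ℤ := fun x => ((x.1 : ℤ) + r) ^ 2 + (x.2 : ℤ) ^ 2
  set I := (Icc (r + 1) (r + r / 20)) ×ˢ (range (Nat.sqrt (4 * r) + 1)) with hI
  have hcard : (I.image val).card = (r / 20) * (Nat.sqrt (4 * r) + 1) := by
    rw [card_image_of_injOn, hI, card_product, Nat.card_Icc, card_range]
    · congr 1; omega
    · have key : ∀ T b T' b' : ℕ, (T, b) ∈ I → (T', b') ∈ I → T < T' → val (T, b) < val (T', b') := by
        intro T b T' b' hm hm' hlt
        rw [hI, mem_product, mem_Icc, mem_range] at hm hm'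
        have hb := (b_bound (k := k) hr (by have := hm.2; simp only at this; omega : b ≤ Nat.sqrt (4 * r))).1
        simp only [val]
        have e1 : (T : ℤ) + 1 ≤ T' := by exact_mod_cast hlt
        have e2 : (r : ℤ) + 1 ≤ T := by exact_mod_cast hm.1.1
        nlinarith [sq_nonneg (b' : ℤ)]
      intro x hx x' hx' hxx
      obtain ⟨T, b⟩ := x
      obtain ⟨T', b'⟩ := x'
      have hTT : T = T' := by
        rcases lt_trichotomy T T' with hlt | heq | hgt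
        · exact absurd hxx (key T b T' b' hx hx' hlt).ne
        · exact heq
        · exact absurd hxx.symm (key T' b' T b hx' hx hgt).ne
      subst hTT
      simp only [val, add_right_inj] at hxx
      have : (b : ℤ) = b' := by
        have h5 : (0 : ℤ) ≤ b := by positivity
        have h6 : (0 : ℤ) ≤ b' := by positivity
        exact (pow_left_inj₀ h5 h6 (by norm_num)).mp hxx
      rw [show b = b' by exact_mod_cast this]
  have hdisj : Disjoint (Δ (Z hk r)) (I.image val) := by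
    rw [Finset.disjoint_left]
    intro d hd hd'
    have h4 := (Δ_Z_le hd).2
    rw [mem_image] at hd'
    obtain ⟨⟨T, b⟩, hm, rfl⟩ := hd'
    rw [hI, mem_product, mem_Icc, mem_range] at hm
    have e2 : (r : ℤ) + 1 ≤ T := by exact_mod_cast hm.1.1
    simp only [val] at h4
    nlinarith [sq_nonneg (b : ℤ)]
  rw [← hcard, ← card_union_of_disjoint hdisj]
  refine card_le_card (union_subset (Δ_mono ((subset_insert _ _).trans subset_union_left)) ?_)
  intro d hd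
  rw [mem_image] at hd
  obtain ⟨⟨T, b⟩, hm, rfl⟩ := hd
  rw [hI, mem_product, mem_Icc, mem_range] at hm
  have e2 : (r : ℤ) + 1 ≤ T := by exact_mod_cast hm.1.1
  have hbb : b ≤ Nat.sqrt (4 * r) := by have := hm.2; simp only at this; omega
  have hqv : q (pt hk (T : ℤ) (b : ℤ) - ℓ) = ((T : ℤ) + r) ^ 2 + (b : ℤ) ^ 2 := by
    rw [hℓ, pt_sub, q_pt]
    ring
  rw [mem_Δ]
  refine ⟨pt hk T b, mem_union_right _ (mem_RR.mpr ⟨T, b, hm.1.1, hm.1.2, hbb, rfl⟩), ℓ,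
    mem_union_left _ (mem_insert_self _ _), ?_, ?_⟩
  · intro e
    rw [e, sub_self] at hqv
    have : q (0 : Fin k → ℤ) = 0 := q_eq_zero.mpr rfl
    rw [this] at hqv
    nlinarith [sq_nonneg (b : ℤ)]
  · exact hqv

/-- growth of the number of distances of the truncated balls. -/
lemma growth (hk : 2 ≤ k) {r : ℕ} (hr : r0 k ≤ r) :
    (Δ (Z hk (r + 1))).card ≤ (Δ (Z hk r)).card + (r / 20) * (Nat.sqrt (4 * r) + 1) := by
  classical
  obtain ⟨h1, h2, h3⟩ := r0_facts hr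
  have hr5 := r_pos hr
  have hkr := k_le hr
  have hsub : Δ (Z hk (r + 1)) ⊆ Δ (Z hk r) ∪ Ioc ((2 * (r : ℤ) - k) ^ 2) (4 * ((r : ℤ) + 1) ^ 2) := by
    intro d hd
    rw [mem_union, mem_Ioc]
    have hle := (Δ_Z_le hd).2
    push_cast at hle
    rcases le_or_gt d ((2 * (r : ℤ) - k) ^ 2) with h | h
    · left
      rw [mem_Δ] at hd
      obtain ⟨x, _, y, _, hne, rfl⟩ := hd
      exact claimA hk (by omega) (by omega) (sub_ne_zero.mpr hne) h
    · exact Or.inr ⟨h, hle⟩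
  refine (card_le_card hsub).trans ((card_union_le _ _).trans ?_)
  rw [Int.card_Ioc]
  refine Nat.add_le_add_left ?_ _
  rw [Int.toNat_le]
  push_cast
  -- lower bound for the square root
  have hs : 40 * (9 + 4 * k) ≤ Nat.sqrt (4 * r) := by
    rw [Nat.le_sqrt]
    unfold r0 at hr
    nlinarith
  have hs' : (40 : ℤ) * (9 + 4 * k) ≤ (Nat.sqrt (4 * r) : ℤ) := by exact_mod_cast hs
  have hdiv : (r : ℤ) ≤ 40 * ((r : ℤ) / 20) := by omega
  have hd0 : (0 : ℤ) ≤ (r : ℤ) / 20 := by positivity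
  have hk0 : (0 : ℤ) ≤ k := by positivity
  have e1 : 4 * ((r : ℤ) + 1) ^ 2 - (2 * (r : ℤ) - k) ^ 2 = 8 * r + 4 + 4 * r * k - k ^ 2 := by ring
  rw [e1]
  have e2 : ((r : ℤ) / 20) * (40 * (9 + 4 * k)) ≤ ((r : ℤ) / 20) * ((Nat.sqrt (4 * r) : ℤ) + 1) :=
    mul_le_mul_of_nonneg_left (by linarith) hd0
  have e3 : (r : ℤ) * (9 + 4 * k) ≤ (40 * ((r : ℤ) / 20)) * (9 + 4 * k) :=
    mul_le_mul_of_nonneg_right hdiv (by positivity)
  nlinarith [sq_nonneg (k : ℤ)]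

/-- Every number between consecutive values is attained. -/
lemma between (hk : 2 ≤ k) {r : ℕ} (hr : r0 k ≤ r) (h : ℕ) (ha : (Δ (Z hk r)).card ≤ h)
    (hb : h ≤ (Δ (Z hk (r + 1))).card) :
    ∃ S : Finset (Fin k → ℤ), Z hk r ⊆ S ∧ (Δ S).card = h := by
  classical
  have hr5 := r_pos hr
  have hkr := k_le hr
  have g1 : ∀ y ∈ Z hk r, pt hk (-(r : ℤ)) 0 ≠ y → q (pt hk (-(r : ℤ)) 0 - y) ∈ Δ (Z hk r) := by
    intro y hy hne
    refine outer_mem hk hr ?_ le_rfl (by positivity) (by positivity) hy hne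
    rw [abs_neg, abs_of_nonneg (by positivity)]
    linarith [(by positivity : (0 : ℤ) ≤ r)]
  have g2 : ∀ x ∈ RR hk r, ∀ y ∈ Z hk r, x ≠ y → q (x - y) ∈ Δ (Z hk r) := by
    intro x hx y hy hne
    rw [mem_RR] at hx
    obtain ⟨T, b, hT1, hT2, hb, rfl⟩ := hx
    obtain ⟨hb1, hb2⟩ := b_bound (k := k) hr hb
    refine outer_mem hk hr ?_ (by positivity) hb1 hb2 hy hne
    rw [abs_of_nonneg (by positivity)]
    have : 20 * T ≤ 21 * r := by omega
    exact_mod_cast this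
  have g3 : ∀ x ∈ RR hk r, ∀ x' ∈ RR hk r, x ≠ x' → q (x - x') ∈ Δ (Z hk r) := by
    intro x hx x' hx' hne
    rw [mem_RR] at hx hx'
    obtain ⟨T, b, hT1, hT2, hb, rfl⟩ := hx
    obtain ⟨T', b', hT1', hT2', hb', rfl⟩ := hx'
    refine claimA hk (by omega) (by omega) (sub_ne_zero.mpr hne) ?_
    rw [pt_sub, q_pt]
    obtain ⟨hb1, hb2⟩ := b_bound (k := k) hr hb
    obtain ⟨hb1', hb2'⟩ := b_bound (k := k) hr hb'
    obtain ⟨h1, h2, h3⟩ := r0_facts hr
    have hd1 : |(T : ℤ) - T'| ≤ r := by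
      rw [abs_le]; constructor <;> omega
    have hd2 : |(b : ℤ) - b'| ≤ r := by
      rw [abs_le]; constructor <;> omega
    have e1 : ((T : ℤ) - T') ^ 2 ≤ (r : ℤ) ^ 2 := sq_le_sq.mpr (by rwa [abs_of_nonneg (by positivity : (0:ℤ) ≤ r)])
    have e2 : ((b : ℤ) - b') ^ 2 ≤ (r : ℤ) ^ 2 := sq_le_sq.mpr (by rwa [abs_of_nonneg (by positivity : (0:ℤ) ≤ r)])
    have hk0 : (0 : ℤ) ≤ k := by positivity
    have e3 : (3600 : ℤ) * (9 + 4 * k) * r ≤ r * r := mul_le_mul_of_nonneg_right h3 (by positivity)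
    nlinarith
  obtain ⟨R', -, hR'⟩ := tune (Z hk r) (pt hk (-(r : ℤ)) 0) (RR hk r) g1 g2 g3 h ha
    ((hb.trans (growth hk hr)).trans (gain hk hr))
  exact ⟨_, (subset_insert _ _).trans subset_union_left, hR'⟩

lemma card_ge (hk : 2 ≤ k) {r : ℕ} (hr : r0 k ≤ r) : 2 * r - k ≤ (Δ (Z hk r)).card := by
  classical
  have hr5 := r_pos hr
  have hkr := k_le hr
  have : ((Icc 1 (2 * r - k)).image (fun j : ℕ => ((j : ℤ)) ^ 2)).card = 2 * r - k := by
    rw [card_image_of_injOn, Nat.card_Icc]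
    · omega
    · intro a _ b _ hab
      have h5 : (0 : ℤ) ≤ a := by positivity
      have h6 : (0 : ℤ) ≤ b := by positivity
      have := (pow_left_inj₀ h5 h6 (by norm_num)).mp hab
      exact_mod_cast this
  rw [← this]
  refine card_le_card ?_
  intro d hd
  rw [mem_image] at hd
  obtain ⟨j, hj, rfl⟩ := hd
  rw [mem_Icc] at hj
  have hq : q (pt hk (j : ℤ) 0) = (j : ℤ) ^ 2 := by rw [q_pt]; ring
  rw [← hq]
  refine claimA hk (by omega) (by omega) ?_ ?_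
  · intro e
    rw [e, q_eq_zero.mpr rfl] at hq
    have : (j : ℤ) = 0 := by
      rcases pow_eq_zero_iff (n := 2) (by norm_num) |>.mp hq.symm with h
      exact h
    have : j = 0 := by exact_mod_cast this
    omega
  · rw [hq]
    have : (j : ℤ) ≤ 2 * r - k := by omega
    exact pow_le_pow_left₀ (by positivity) this 2

/-- Main lattice theorem. -/
theorem lattice_main (hk : 2 ≤ k) (h : ℕ) (hh : (Δ (Z hk (r0 k))).card ≤ h) :
    ∃ r : ℕ, r0 k ≤ r ∧ h ≤ (Δ (Z hk (r + 1))).card ∧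
      ∃ S : Finset (Fin k → ℤ), Z hk r ⊆ S ∧ (Δ S).card = h := by
  classical
  have hex : ∃ r, r0 k ≤ r ∧ h ≤ (Δ (Z hk (r + 1))).card := by
    refine ⟨max (r0 k) (h + k), le_max_left _ _, ?_⟩
    refine le_trans ?_ (card_ge hk (r := max (r0 k) (h + k) + 1) ((le_max_left _ _).trans (Nat.le_succ _)))
    have := le_max_right (r0 k) (h + k)
    omega
  set r := Nat.find hex with hr
  obtain ⟨hr0, hle⟩ := Nat.find_spec hex
  rw [← hr] at hr0 hle
  refine ⟨r, hr0, hle, between hk hr0 h ?_ hle⟩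
  rcases Nat.lt_or_ge (r0 k) r with hlt | hge
  · have hmin := Nat.find_min hex (m := r - 1) (by omega)
    push Not at hmin
    have := hmin (by omega)
    rw [Nat.sub_add_cancel (by omega)] at this
    exact this.le
  · have : r = r0 k := le_antisymm hge hr0
    rw [this]; exact hh

/-- size of the truncated ball. -/
lemma Z_card (hk : 2 ≤ k) (r : ℕ) : ((r : ℝ) / k) ^ k ≤ ((Z hk r).card : ℝ) := by
  classical
  have hsub : Fintype.piFinset (fun _ : Fin k => Icc (-((r / k : ℕ) : ℤ)) ((r / k : ℕ) : ℤ)) ⊆ Z hk r := by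
    intro y hy
    rw [Fintype.mem_piFinset] at hy
    have hy' : ∀ i, |y i| ≤ ((r / k : ℕ) : ℤ) := fun i => abs_le.mpr (mem_Icc.mp (hy i))
    have hkr : (k : ℤ) * ((r / k : ℕ) : ℤ) ≤ r := by
      exact_mod_cast Nat.mul_div_le r k
    have hm0 : (0 : ℤ) ≤ ((r / k : ℕ) : ℤ) := by positivity
    have hk2 : (2 : ℤ) ≤ k := by exact_mod_cast hk
    rw [mem_Z]
    constructor
    · have h1 : q y ≤ ∑ _i : Fin k, ((r / k : ℕ) : ℤ) ^ 2 := by
        unfold q
        refine sum_le_sum fun i _ => ?_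
        exact sq_le_sq.mpr (by rw [abs_of_nonneg hm0]; exact hy' i)
      rw [sum_const, card_univ, Fintype.card_fin, nsmul_eq_mul] at h1
      refine h1.trans ?_
      have h2 : ((r / k : ℕ) : ℤ) ≤ r := by nlinarith
      calc (k : ℤ) * ((r / k : ℕ) : ℤ) ^ 2 = (k * ((r / k : ℕ) : ℤ)) * ((r / k : ℕ) : ℤ) := by ring
        _ ≤ r * r := mul_le_mul hkr h2 hm0 (by positivity)
        _ = (r : ℤ) ^ 2 := by ring
    · have h2 := hy' ⟨0, by omega⟩
      nlinarith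
  have hcard := card_le_card hsub
  rw [Fintype.card_piFinset] at hcard
  simp only [Int.card_Icc, prod_const, card_univ, Fintype.card_fin] at hcard
  have e1 : (((r / k : ℕ) : ℤ) + 1 - -((r / k : ℕ) : ℤ)).toNat = 2 * (r / k) + 1 := by omega
  rw [e1] at hcard
  have hk0 : (0 : ℝ) < k := by exact_mod_cast (by omega : 0 < k)
  calc ((r : ℝ) / k) ^ k ≤ ((2 * (r / k) + 1 : ℕ) : ℝ) ^ k := by
        refine pow_le_pow_left₀ (by positivity) ?_ k
        rw [div_le_iff₀ hk0]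
        have h3 : r < (r / k + 1) * k := by
          have := Nat.lt_div_mul_add (a := r) (b := k) (by omega)
          linarith
        have h4 : (r : ℝ) ≤ ((r / k : ℕ) + 1) * k := by exact_mod_cast h3.le
        push_cast
        have h5 : (0 : ℝ) ≤ ((r / k : ℕ) : ℝ) := by positivity
        nlinarith
    _ ≤ ((Z hk r).card : ℝ) := by exact_mod_cast hcard

end Pool.Agent.H313DD
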