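import Mathlib
import Pool.Agent.H313DD.Tune
import Pool.Agent.H313DD.Simplex
import Pool.Agent.Helper949.Landau

namespace Pool.Agent.H313DD

open Finset

lemma card_le_of_Z {k : ℕ} (hk : 2 ≤ k) {r : ℕ} :
    (Δ (Z hk (r + 1))).card ≤ 4 * (r + 1) ^ 2 := by
  have hsub : Δ (Z hk (r + 1)) ⊆ Ioc 0 (4 * ((r : ℤ) + 1) ^ 2) := by
    intro d hd
    have := Δ_Z_le hd
    push_cast at this
    rw [mem_Ioc]
    exact this
  refine (card_le_card hsub).trans ?_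
  rw [Int.card_Ioc, Int.toNat_le]
  push_cast
  linarith

/-- From the lattice theorem to the value sets. -/
lemma lattice_D {k : ℕ} (hk : 2 ≤ k) (h : ℕ) (hh : (Δ (Z hk (r0 k))).card ≤ h) :
    ∃ r : ℕ, 1 ≤ r ∧ h ≤ (Δ (Z hk (r + 1))).card ∧ ∃ N : ℕ, ((r : ℝ) / k) ^ k ≤ (N : ℝ) ∧ h ∈ D k N := by
  classical
  obtain ⟨r, hr, hle, S, hS, hSh⟩ := lattice_main hk h hh
  refine ⟨r, by have := r_pos hr; omega, hle, S.card, ?_, S.image emb, ?_, ?_⟩
  · refine (Z_card hk r).trans ?_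
    exact_mod_cast card_le_card hS
  · exact card_image_of_injective _ emb_injective
  · rw [numDist_emb, hSh]

lemma lattice_D' {k : ℕ} (hk : 2 ≤ k) : ∃ h0 : ℕ, 0 < h0 ∧ ∀ h : ℕ, h0 ≤ h →
    ∃ r : ℕ, 1 ≤ r ∧ h ≤ (Δ (Z hk (r + 1))).card ∧
      ∃ N : ℕ, ((r : ℝ) / k) ^ k ≤ (N : ℝ) ∧ h ∈ D k N := by
  refine ⟨(Δ (Z hk (r0 k))).card, ?_, fun h hh => lattice_D hk h hh⟩
  have h11 : 2 * r0 k - k ≤ (Δ (Z hk (r0 k))).card := card_ge hk le_rfl
  have h12 := k_le (k := k) (r := r0 k) le_rfl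
  have h13 := r_pos (k := k) (r := r0 k) le_rfl
  omega

lemma use_N {k : ℕ} (hk : 2 ≤ k) {N n h : ℕ} (hn : 1 ≤ n) (hN : h ∈ D k N) (hnN : n ≤ N)
    (h2 : h ≤ n.choose 2) : h ∈ D k n := nested (by omega) hn hnN hN h2

/-- Every number between `C n^(2/k)` and `n choose 2` occurs. -/
theorem power_range {k : ℕ} (hk : 2 ≤ k) : ∃ C : ℝ, 0 < C ∧ ∀ n h : ℕ, 2 ≤ n →
    C * (n : ℝ) ^ (2 / (k : ℝ)) ≤ h → h ≤ n.choose 2 → h ∈ D k n := by
  obtain ⟨h0, hh0pos', hlat⟩ := lattice_D' hk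
  have hk0 : (0 : ℝ) < k := by exact_mod_cast (by omega : 0 < k)
  refine ⟨16 * (k : ℝ) ^ 2 + h0, by positivity, fun n h hn h1 h2 => ?_⟩
  have hn1 : (1 : ℝ) ≤ n := by exact_mod_cast (by omega : 1 ≤ n)
  have hpow : (1 : ℝ) ≤ (n : ℝ) ^ (2 / (k : ℝ)) := Real.one_le_rpow hn1 (by positivity)
  have hh : h0 ≤ h := by
    have : (h0 : ℝ) ≤ h := by
      refine le_trans ?_ h1
      nlinarith [(by positivity : (0 : ℝ) ≤ 16 * (k : ℝ) ^ 2), (Nat.cast_nonneg h0 : (0 : ℝ) ≤ h0)]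
    exact_mod_cast this
  obtain ⟨r, hr, hle, N, hN, hD⟩ := hlat h hh
  refine use_N hk (by omega) hD ?_ h2
  by_contra hcon
  push Not at hcon
  have hNn : (N : ℝ) < n := by exact_mod_cast hcon
  have h3 : ((r : ℝ) / k) ^ k < n := lt_of_le_of_lt hN hNn
  -- `r < k n^(1/k)`
  have h4 : ((r : ℝ) / k) ^ 2 ≤ (n : ℝ) ^ (2 / (k : ℝ)) := by
    have h5 : ((r : ℝ) / k) ^ 2 = (((r : ℝ) / k) ^ k) ^ (2 / (k : ℝ)) := by
      rw [← Real.rpow_natCast ((r : ℝ) / k) k, ← Real.rpow_mul (by positivity)]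
      rw [mul_div_cancel₀ _ hk0.ne']
      exact (Real.rpow_natCast _ 2).symm
    rw [h5]
    exact Real.rpow_le_rpow (by positivity) h3.le (by positivity)
  have h6 : (h : ℝ) ≤ 4 * ((r : ℝ) + 1) ^ 2 := by
    exact_mod_cast hle.trans (card_le_of_Z hk)
  have hr' : (1 : ℝ) ≤ r := by exact_mod_cast hr
  have h7 : 4 * ((r : ℝ) + 1) ^ 2 ≤ 16 * (r : ℝ) ^ 2 := by nlinarith
  have h8 : (r : ℝ) ^ 2 ≤ (k : ℝ) ^ 2 * (n : ℝ) ^ (2 / (k : ℝ)) := by
    have : (r : ℝ) ^ 2 = (k : ℝ) ^ 2 * ((r : ℝ) / k) ^ 2 := by field_simp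
    rw [this]
    exact mul_le_mul_of_nonneg_left h4 (by positivity)
  have h9 : 16 * (r : ℝ) ^ 2 ≤ 16 * (k : ℝ) ^ 2 * (n : ℝ) ^ (2 / (k : ℝ)) := by nlinarith
  have h10 : (h : ℝ) = (16 * (k : ℝ) ^ 2 + h0) * (n : ℝ) ^ (2 / (k : ℝ)) ∨
      (h : ℝ) ≤ (16 * (k : ℝ) ^ 2 + h0) * (n : ℝ) ^ (2 / (k : ℝ)) := by
    right
    nlinarith [(Nat.cast_nonneg h0 : (0 : ℝ) ≤ h0)]
  -- equality is excluded because `h0 > 0`
  have hh0pos : (0 : ℝ) < h0 := by exact_mod_cast hh0pos'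
  nlinarith

/-- In the plane every number between `C n / sqrt (log n)` and `n choose 2` occurs. -/
theorem plane_range : ∃ C : ℝ, 0 < C ∧ ∀ n h : ℕ, 2 ≤ n →
    C * n / Real.sqrt (Real.log n) ≤ h → h ≤ n.choose 2 → h ∈ D 2 n := by
  obtain ⟨K, hK0, hK⟩ := Pool.Agent.Helper949.Landau.V_bound
  obtain ⟨h0, hh0pos', hlat⟩ := lattice_D' (le_refl 2)
  refine ⟨64 * K + h0 + 1, by positivity, fun n h hn h1 h2 => ?_⟩
  have hn2 : (2 : ℝ) ≤ n := by exact_mod_cast hn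
  have hlog : 0 < Real.log n := Real.log_pos (by linarith)
  have hsq : 0 < Real.sqrt (Real.log n) := Real.sqrt_pos.mpr hlog
  have hquot : 1 ≤ (n : ℝ) / Real.sqrt (Real.log n) := by
    rw [le_div_iff₀ hsq, one_mul]
    have e1 : Real.log n ≤ n := (Real.log_le_sub_one_of_pos (by linarith)).trans (by linarith)
    have e2 : Real.sqrt (Real.log n) ≤ Real.sqrt ((n : ℝ) ^ 2) :=
      Real.sqrt_le_sqrt (by nlinarith)
    rwa [Real.sqrt_sq (by linarith)] at e2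
  have hh : h0 ≤ h := by
    have : (h0 : ℝ) ≤ h := by
      refine le_trans ?_ h1
      rw [mul_div_assoc]
      nlinarith [(Nat.cast_nonneg h0 : (0 : ℝ) ≤ h0)]
    exact_mod_cast this
  obtain ⟨r, hr, hle, N, hN, hD⟩ := hlat h hh
  refine use_N (le_refl 2) (by omega) hD ?_ h2
  by_contra hcon
  push Not at hcon
  have hNn : (N : ℝ) < n := by exact_mod_cast hcon
  have h3 : ((r : ℝ) / (2 : ℕ)) ^ 2 < n := lt_of_le_of_lt hN hNn
  have hr' : (1 : ℝ) ≤ r := by exact_mod_cast hr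
  have h4 : (4 * ((r : ℝ) + 1) ^ 2) ≤ 64 * n := by
    push_cast at h3
    nlinarith
  have h4' : 4 * (r + 1) ^ 2 ≤ 64 * n := by exact_mod_cast h4
  -- the distances are sums of two squares
  have hsub : (Δ (Z (le_refl 2) (r + 1))).card ≤ (Pool.Agent.Helper949.Landau.V (64 * n)).card := by
    classical
    refine Finset.card_le_card_of_injOn Int.toNat ?_ ?_
    · intro d hd
      rw [mem_coe] at hd ⊢
      have hb := Δ_Z_le hd
      rw [mem_Δ] at hd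
      obtain ⟨x, _, y, _, hne, rfl⟩ := hd
      unfold Pool.Agent.Helper949.Landau.V
      rw [mem_filter, mem_Ioc]
      refine ⟨⟨?_, ?_⟩, x 0 - y 0, x 1 - y 1, ?_⟩
      · omega
      · rw [Int.toNat_le]
        refine hb.2.trans ?_
        push_cast
        exact_mod_cast h4'
      · rw [Int.toNat_of_nonneg hb.1.le]
        simp [q, Fin.sum_univ_two]
    · intro a ha b hb hab
      have ha' := (Δ_Z_le ha).1
      have hb' := (Δ_Z_le hb).1
      have := congrArg (Nat.cast : ℕ → ℤ) hab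
      rwa [Int.toNat_of_nonneg ha'.le, Int.toNat_of_nonneg hb'.le] at this
  have h5 : (h : ℝ) ≤ K * (((64 * n : ℕ) : ℝ) / Real.sqrt (1 + Real.log ((64 * n : ℕ) : ℝ))) := by
    refine le_trans ?_ (hK (64 * n) (by omega))
    exact_mod_cast hle.trans hsub
  have h6 : Real.sqrt (Real.log n) ≤ Real.sqrt (1 + Real.log ((64 * n : ℕ) : ℝ)) := by
    refine Real.sqrt_le_sqrt ?_
    have : Real.log n ≤ Real.log ((64 * n : ℕ) : ℝ) := by
      refine Real.log_le_log (by linarith) ?_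
      push_cast; linarith
    linarith
  have h7 : ((64 * n : ℕ) : ℝ) / Real.sqrt (1 + Real.log ((64 * n : ℕ) : ℝ))
      ≤ 64 * (n / Real.sqrt (Real.log n)) := by
    rw [← mul_div_assoc]
    push_cast at h6 ⊢
    exact div_le_div_of_nonneg_left (by positivity) hsq h6
  have h8 : (h : ℝ) ≤ 64 * K * (n / Real.sqrt (Real.log n)) := by
    refine h5.trans ?_
    calc K * (((64 * n : ℕ) : ℝ) / Real.sqrt (1 + Real.log ((64 * n : ℕ) : ℝ)))
        ≤ K * (64 * (n / Real.sqrt (Real.log n))) := mul_le_mul_of_nonneg_left h7 hK0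
      _ = _ := by ring
  rw [mul_div_assoc] at h1
  nlinarith [(Nat.cast_nonneg h0 : (0 : ℝ) ≤ h0)]

end Pool.Agent.H313DD
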